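import Pool.Agent.H454.QD.Tr2
import Pool.Agent.H468.X15S.Top

/-!
# The twists of `X_0(15)` which satisfy the Birch and Swinnerton-Dyer conjecture (rank form) are
# quasirandom in almost every finitely generated group of quadratic twists

`E_D : y² = x³ - 12987 D² x - 263466 D³` is the quadratic twist by `D` of the curve
`X_0(15) : y² + x y + y = x³ + x² - 10 x - 10`.

All the known results about the proportion of the quadratic twists for which the rank part of the
conjecture holds average over all the twists `D ≤ X` (or over all `D` with a given number of prime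
factors).  Here everything happens inside a *single finite group*: `twists P` is the group of the
products `D ≡ 1, 49 mod 60` of subsets of a set `P` of `m` primes (the multiplication is modulo
squares), in other words a group of characters of the Galois group of the multiquadratic field
generated by the `√p`, `p ∈ P`.  A twist is *good* if `E_D(ℚ)` is finite, `Ш(E_D/ℚ)[2] = 0` and the
problem's statement holds.

The theorem: if `m` is large, then for almost all the sets `P` of `m` primes the set of the good twists is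
*quasirandom* in the group `twists P` in the strongest sense of Chung, Graham and Wilson and of
Gowers (the norm `U²`), with density `c = (1 - 1/2) (1 - 1/4) (1 - 1/8) ⋯ = 0.2887...`:
* for all the characters of the group at the same time, the good twists are equidistributed (the
  trivial character: the share of the good twists is `c` up to `ε`);
* for all the pairs of subsets `𝒜`, `ℬ` of the group, the twist by `A B` is good for `c |𝒜| |ℬ|` of the
  pairs `(A, B) ∈ 𝒜 × ℬ`, up to `ε (# twists P)²`;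
* the three twists by `A`, `B` and `A B` are all good for the share `c³` of all the pairs.

Proof.  The twists of a group are far from independent: they are all functions of the `m (m - 1) / 2`
symbols of pairs of elements of `P` (and of `P` modulo `60`).  One has to bound the mean over `P` of the
sum of the products `f(S₁) f(S₂) f(S₃) f(S₁ S₂ S₃)`, where `f` is the centred indicator of the good
twists.  A block `X × Y` of symbols (`X` in `S₁ ∩ S₂` only, `Y` in `S₁ ∩ S₃` only) occurs only in the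
first factor.  If two symmetric arrays agree outside such a block and are independent inside it, then
their two kernels are nearly independent: the events that given vectors, jointly independent on `X` and
on `Y`, are in the two kernels, are exactly independent (an explicit change of variables,
`Pool/Agent/H454/QD/Dec`), and all relations between the two kernels are improbable (`QD/Bp`).  The
symbols are equidistributed by the theorem of Siegel and Walfisz and the large sieve.  The `L`-values: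
`Pool/Graph/.../H757_X15`, by helper757 and their team.  The 2-Selmer groups and `Ш[2]`:
`Pool/Agent/H468`, by helper468.
-/

set_option autoImplicit false

open Filter Topology

namespace Pool.Agent.Results.MP_696deb_nt.QuasirandomX15

open Pool.Agent.TH841.SH.D (Sha)

/-- `N_p`: the number of pairs `(x, y) ∈ (ℤ/p)²` with `y² = x³ + a x + b`. -/
noncomputable def pointCount (a b : ℤ) (p : ℕ) : ℕ :=
  Nat.card {q : ZMod p × ZMod p // q.2 ^ 2 = q.1 ^ 3 + (a : ZMod p) * q.1 + (b : ZMod p)}

/-- `p` is a prime not dividing `2 Δ`, `Δ = -4 a³ - 27 b²`. -/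
def GoodPrime (a b : ℤ) (p : ℕ) : Prop :=
  p.Prime ∧ ¬ ((p : ℤ) ∣ 2 * (-4 * a ^ 3 - 27 * b ^ 2))

open Classical in
/-- `F` is the `L`-function of `E : y² = x³ + a x + b` (in the form of the problem): it is entire and
for `Re s > 3/2` it is the incomplete product `∏_{p ∤ 2Δ} (1 - a_p p^{-s} + p^{1-2s})⁻¹`,
`a_p = p - N_p`. -/
def IsL (a b : ℤ) (F : ℂ → ℂ) : Prop :=
  Differentiable ℂ F ∧ ∀ s : ℂ, (3 : ℝ) / 2 < s.re →
    HasProd (fun p : ℕ => if GoodPrime a b p then
      (1 - ((p : ℂ) - (pointCount a b p : ℂ)) * (p : ℂ) ^ (-s) + (p : ℂ) ^ (1 - 2 * s))⁻¹ else 1)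
      (F s)

/-- the group `E(ℚ)` for `E : y² = x³ + a x + b` -/
abbrev Points (a b : ℤ) : Type :=
  (({ a₁ := 0, a₂ := 0, a₃ := 0, a₄ := (a : ℚ), a₆ := (b : ℚ) } : WeierstrassCurve ℚ).toAffine).Point

/-- The statement of the problem for `E : y² = x³ + a x + b`, with the additional information that
both sides are `0`: the `L`-function of `E` is entire, its order of vanishing at `s = 1` is the rank
of `E(ℚ)`, the rank is `0`, and `E(ℚ)` is finite. -/
def BSDRankZero (a b : ℤ) : Prop :=
  4 * a ^ 3 + 27 * b ^ 2 ≠ 0 ∧ Finite (Points a b) ∧ ∃ F : ℂ → ℂ, IsL a b F ∧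
    analyticOrderAt F 1 = ((Module.finrank ℤ (Points a b) : ℕ) : ℕ∞) ∧
    Module.finrank ℤ (Points a b) = 0

/-- The rank form of the conjecture, with rank `0`, for the quadratic twist by `D` of `X_0(15)`,
`E_D : y² = x³ - 12987 D² x - 263466 D³`. -/
def TwistBSD (D : ℕ) : Prop := BSDRankZero (-12987 * (D : ℤ) ^ 2) (-263466 * (D : ℤ) ^ 3)

/-- the quadratic twist by `D` of `X_0(15)` -/
def E (D : ℕ) : WeierstrassCurve ℚ :=
  { a₁ := 0, a₂ := 0, a₃ := 0, a₄ := ((-12987 * (D : ℤ) ^ 2 : ℤ) : ℚ),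
    a₆ := ((-263466 * (D : ℤ) ^ 3 : ℤ) : ℚ) }

/-- `E_D(ℚ)` is finite and `Ш(E_D/ℚ)` has no element of order two. -/
def RankZeroShaTwo (D : ℕ) : Prop :=
  Finite (E D).toAffine.Point ∧ ∀ x : Sha (E D), x + x = 0 → x = 0

/-- the constant `(1 - 1/2) (1 - 1/4) (1 - 1/8) ⋯ = 0.2887...` -/
noncomputable def c : ℝ := ∏' i : ℕ, (1 - (1 / 2 : ℝ) ^ (i + 1))

/-- The products `D` of the subsets of `P` with `D ≡ 1` or `49` modulo `60`. -/
def twists (P : Finset ℕ) : Finset ℕ :=
  (P.powerset.image fun S => ∏ p ∈ S, p).filter fun D => D % 60 = 1 ∨ D % 60 = 49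

/-- The sets of `m` primes between `7` and `X`. -/
def primeSets (m X : ℕ) : Finset (Finset ℕ) := ((Finset.Icc 7 X).filter Nat.Prime).powersetCard m

/-- The twist by `D` is good: `E_D(ℚ)` is finite, `Ш(E_D/ℚ)[2] = 0`, and the statement of the problem
holds for `E_D` (with both sides `0`). -/
def Good (D : ℕ) : Prop := RankZeroShaTwo D ∧ TwistBSD D

/-- The product modulo squares of two squarefree numbers: the squarefree part of `A B`. -/
def mulSq (A B : ℕ) : ℕ := A * B / (Nat.gcd A B) ^ 2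

/-- The character of the group `twists P` attached to `T ⊆ P`: the sign `(-1)^k`, `k` the number of the
primes of `T` which divide `D`.  (All characters are of this form.) -/
noncomputable def chi (T : Finset ℕ) (D : ℕ) : ℝ := (-1) ^ (T.filter fun p => p ∣ D).card

open Classical in
/-- The indicator of the good twists. -/
noncomputable def g (D : ℕ) : ℝ := if Good D then 1 else 0

open Classical in
/-- The good twists are quasirandom in the group `twists P`, with density `c`, up to `ε`. -/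
structure Quasirandom (ε : ℝ) (P : Finset ℕ) : Prop where
  /-- all the characters; the empty `T` gives: the number of the good twists is `(c ± ε) # twists P` -/
  characters : ∀ T ⊆ P, |∑ D ∈ twists P, chi T D * (g D - c)| ≤ ε * (twists P).card
  /-- all the pairs of subsets -/
  pairs : ∀ 𝒜 ⊆ twists P, ∀ ℬ ⊆ twists P,
    |(((𝒜 ×ˢ ℬ).filter fun x => Good (mulSq x.1 x.2)).card : ℝ) - c * 𝒜.card * ℬ.card| ≤
      ε * (twists P).card ^ 2
  /-- the pairs `A`, `B` with good `A`, `B` and `A B` -/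
  triples : |(((twists P ×ˢ twists P).filter fun x =>
      Good x.1 ∧ Good x.2 ∧ Good (mulSq x.1 x.2)).card : ℝ) - c ^ 3 * (twists P).card ^ 2| ≤
      ε * (twists P).card ^ 2

section proof

open Pool.Agent.H757_X15.DD (Fm Crit c1 t_LA1)
open Pool.Agent.H454.QB (grp Pr)
open Pool.Agent.H454.QD (twF cD xr Exc2)

lemma bsd_of {D : ℕ} (hS : Squarefree D) (hD : Fm D) (h1 : D ≠ 1) (hG : Crit D) : TwistBSD D := by
  have hfin := Pool.Agent.H468.X15.finite_set hS hD hG h1
  obtain ⟨F, hF, hp, h0, hr⟩ := Pool.Agent.H468.X15.rankBSD_of hS hD h1 hG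
  have hD0 : (D : ℤ) ≠ 0 := by exact_mod_cast hS.ne_zero
  refine ⟨?_, Pool.Agent.Y687.finite_pt_of_set hfin, F, ⟨hF, fun s hs => ?_⟩, ?_, ?_⟩
  · have e : 4 * (-12987 * (D : ℤ) ^ 2) ^ 3 + 27 * (-263466 * (D : ℤ) ^ 3) ^ 2 =
        (4 * (-12987) ^ 3 + 27 * (-263466) ^ 2) * (D : ℤ) ^ 6 := by ring
    rw [e]
    exact mul_ne_zero (by norm_num) (pow_ne_zero 6 hD0)
  · refine (congrArg (fun g => HasProd g (F s)) (funext fun p => ?_)).mp (hp s hs)
    by_cases h : GoodPrime (-12987 * (D : ℤ) ^ 2) (-263466 * (D : ℤ) ^ 3) p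
    · exact (if_pos h).trans (if_pos h).symm
    · exact (if_neg h).trans (if_neg h).symm
  · have hr' : Module.finrank ℤ (Points (-12987 * (D : ℤ) ^ 2) (-263466 * (D : ℤ) ^ 3)) = 0 := hr
    rw [hr', h0]
    rfl
  · exact hr

lemma c_bounds : 0.2887 < c ∧ c < 0.2888 := t_LA1.2.2.2

lemma sel_iff {D : ℕ} (hS : Squarefree D) (hD : Fm D) (h1 : D ≠ 1) : RankZeroShaTwo D ↔ Crit D :=
  Pool.Agent.H468.X15.sha_iff_crit (Pool.Agent.H468.X15.mod_short hS.ne_zero _ _ rfl rfl)
    hS hD h1 fun hC => Pool.Agent.Y687.finite_pt_of_set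
      (Pool.Agent.H468.X15.finite_set hS hD hC h1)

lemma mem_twists {P : Finset ℕ} {D : ℕ} : D ∈ twists P ↔ D ∈ grp P ∧ Fm D := by
  unfold twists grp Fm
  rw [Finset.mem_filter]

lemma sq_of_mem {P : Finset ℕ} (hP : ∀ q ∈ P, q.Prime ∧ 7 ≤ q) {D : ℕ} (hD : D ∈ grp P) :
    Squarefree D := by
  unfold grp at hD
  obtain ⟨S, hS, rfl⟩ := Finset.mem_image.1 hD
  exact Pool.Agent.H454.QB.sqfree_prod fun q hq => (hP q (Finset.mem_powerset.1 hS hq)).1

lemma twists_eq (P : Finset ℕ) : twists P = twF P := by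
  classical
  ext D
  rw [mem_twists]
  unfold Pool.Agent.H454.QD.twF
  rw [Finset.mem_filter]

lemma good_iff {D : ℕ} (hS : Squarefree D) (hD : Fm D) (h1 : D ≠ 1) : Good D ↔ Crit D :=
  ⟨fun h => (sel_iff hS hD h1).1 h.1, fun h => ⟨(sel_iff hS hD h1).2 h, bsd_of hS hD h1 h⟩⟩

lemma g_eq {P : Finset ℕ} (hP : ∀ q ∈ P, q.Prime ∧ 7 ≤ q) {D : ℕ} (hD : D ∈ twists P)
    (h1 : D ≠ 1) : g D - c = cD D := by
  have h := good_iff (sq_of_mem hP (mem_twists.1 hD).1) (mem_twists.1 hD).2 h1
  have hc : c1 = c := rfl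
  unfold g Pool.Agent.H454.QD.cD
  rw [hc]
  by_cases hg : Good D
  · rw [if_pos hg, if_pos (h.1 hg)]
  · rw [if_neg hg, if_neg fun hh => hg (h.2 hh)]

lemma g_near (D : ℕ) : |(g D - c) - cD D| ≤ 1 := by
  have hc : c1 = c := rfl
  unfold g Pool.Agent.H454.QD.cD
  rw [hc, sub_sub_sub_cancel_right]
  split_ifs <;> norm_num

lemma primeSets_eq (m X : ℕ) : primeSets m X = (Pr X).powersetCard m := by
  unfold primeSets
  congr 1
  ext p
  rw [Pool.Agent.H454.QB.mem_Pr, Finset.mem_filter, Finset.mem_Icc]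
  constructor
  · rintro ⟨⟨h1, h2⟩, h3⟩; exact ⟨h2, h3, h1⟩
  · rintro ⟨h1, h2, h3⟩; exact ⟨⟨h3, h1⟩, h2⟩

lemma twists_large {P : Finset ℕ} (hP : ∀ p ∈ P, p.Prime ∧ 7 ≤ p) :
    2 ^ P.card ≤ 8 * (twists P).card := by
  rw [twists_eq]
  exact Pool.Agent.H454.QB.fam_large hP

/-- the law for the characters -/
lemma characters_of {δ : ℝ} {P : Finset ℕ} (hP : ∀ q ∈ P, q.Prime ∧ 7 ≤ q)
    (h : ¬ Exc2 δ P) (hl : 1 ≤ δ * (twists P).card) {T : Finset ℕ} (hT : T ⊆ P) :
    |∑ D ∈ twists P, chi T D * (g D - c)| ≤ 2 * δ * (twists P).card := by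
  have h1 := Pool.Agent.H454.QD.char_law hP h hT
  rw [← twists_eq] at h1
  have h2 : |∑ D ∈ twists P, chi T D * (g D - c) -
      ∑ D ∈ twists P, Pool.Agent.H454.QD.chi T D * cD D| ≤ 1 := by
    rw [← Finset.sum_sub_distrib]
    have e1 : ∀ D ∈ twists P, |chi T D * (g D - c) - Pool.Agent.H454.QD.chi T D * cD D| ≤
        if D = 1 then 1 else 0 := by
      intro D hD
      have e2 : chi T D = Pool.Agent.H454.QD.chi T D := rfl
      rw [e2, ← mul_sub]
      split_ifs with h0
      · rw [abs_mul]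
        exact mul_le_one₀ (Pool.Agent.H454.QD.chi_abs T D) (abs_nonneg _) (g_near D)
      · rw [g_eq hP hD h0, sub_self, mul_zero, abs_zero]
    refine (Finset.abs_sum_le_sum_abs _ _).trans ((Finset.sum_le_sum e1).trans ?_)
    rw [Finset.sum_ite_eq' (twists P)]
    split_ifs <;> norm_num
  have h3 := abs_sub_abs_le_abs_sub (∑ D ∈ twists P, chi T D * (g D - c))
    (∑ D ∈ twists P, Pool.Agent.H454.QD.chi T D * cD D)
  have h4 : |∑ D ∈ twists P, Pool.Agent.H454.QD.chi T D * cD D| ≤ δ * (twists P).card := h1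
  linarith

/-- the law for the pairs of subsets -/
lemma pairs_of {δ : ℝ} {P : Finset ℕ} (hP : ∀ q ∈ P, q.Prime ∧ 7 ≤ q)
    (h : ¬ Exc2 δ P) (hl : 1 ≤ δ * (twists P).card) {𝒜 ℬ : Finset ℕ} (hA : 𝒜 ⊆ twists P)
    (hB : ℬ ⊆ twists P) :
    |∑ A ∈ 𝒜, ∑ B ∈ ℬ, (g (mulSq A B) - c)| ≤ 2 * δ * (twists P).card ^ 2 := by
  have h1 := Pool.Agent.H454.QD.pair_law h (SA := 𝒜) (SB := ℬ) (by rw [← twists_eq]; exact hA)
    (by rw [← twists_eq]; exact hB)
  rw [← twists_eq] at h1
  have h2 : |∑ A ∈ 𝒜, ∑ B ∈ ℬ, (g (mulSq A B) - c) - ∑ A ∈ 𝒜, ∑ B ∈ ℬ, cD (xr A B)| ≤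
      (twists P).card := by
    rw [← Finset.sum_sub_distrib]
    have e1 : ∀ A ∈ 𝒜, |∑ B ∈ ℬ, (g (mulSq A B) - c) - ∑ B ∈ ℬ, cD (xr A B)| ≤ 1 := by
      intro A hA'
      rw [← Finset.sum_sub_distrib]
      have e2 : ∀ B ∈ ℬ, |(g (mulSq A B) - c) - cD (xr A B)| ≤ if B = A then 1 else 0 := by
        intro B hB'
        have e3 : mulSq A B = xr A B := rfl
        rw [e3]
        have hA2 : A ∈ twF P := by rw [← twists_eq]; exact hA hA'
        have hB2 : B ∈ twF P := by rw [← twists_eq]; exact hB hB'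
        split_ifs with h0
        · exact g_near _
        · have hne : xr A B ≠ 1 := by
            intro h1'
            apply h0
            have e4 := Pool.Agent.H454.QD.xr_xr hP hA2 hB2
            rw [h1'] at e4
            have e5 : xr A 1 = A := by
              show A * 1 / (Nat.gcd A 1) ^ 2 = A
              rw [Nat.gcd_one_right]
              simp
            rw [e5] at e4
            exact e4.symm
          have hm : xr A B ∈ twists P := by
            rw [twists_eq]
            exact Pool.Agent.H454.QD.xr_mem hP hA2 hB2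
          rw [g_eq hP hm hne, sub_self, abs_zero]
      refine (Finset.abs_sum_le_sum_abs _ _).trans ((Finset.sum_le_sum e2).trans ?_)
      rw [Finset.sum_ite_eq' ℬ]
      split_ifs <;> norm_num
    refine (Finset.abs_sum_le_sum_abs _ _).trans ((Finset.sum_le_sum e1).trans ?_)
    rw [Finset.sum_const, nsmul_eq_mul, mul_one, Nat.cast_le]
    exact Finset.card_le_card hA
  have h3 := abs_sub_abs_le_abs_sub (∑ A ∈ 𝒜, ∑ B ∈ ℬ, (g (mulSq A B) - c))
    (∑ A ∈ 𝒜, ∑ B ∈ ℬ, cD (xr A B))
  have h4 : ((twists P).card : ℝ) ≤ δ * (twists P).card ^ 2 := by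
    have := mul_le_mul_of_nonneg_right hl (Nat.cast_nonneg (α := ℝ) (twists P).card)
    rw [one_mul] at this
    refine this.trans (le_of_eq ?_)
    ring
  linarith

open Classical in
lemma count_pairs (𝒜 ℬ : Finset ℕ) :
    (((𝒜 ×ˢ ℬ).filter fun x => Good (mulSq x.1 x.2)).card : ℝ) - c * 𝒜.card * ℬ.card =
      ∑ A ∈ 𝒜, ∑ B ∈ ℬ, (g (mulSq A B) - c) := by
  rw [Finset.card_filter]
  push_cast
  rw [Finset.sum_product]
  simp only [Finset.sum_sub_distrib, Finset.sum_const, nsmul_eq_mul]
  have : c * (𝒜.card : ℝ) * ℬ.card = 𝒜.card * (ℬ.card * c) := by ring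
  rw [this]
  rfl

lemma quasi_of {ε : ℝ} (hε : 0 < ε) {P : Finset ℕ} (hP : ∀ q ∈ P, q.Prime ∧ 7 ≤ q)
    (hl : 1 ≤ ε / 6 * (twists P).card) (h : ¬ Exc2 (ε / 6) P) : Quasirandom ε P := by
  classical
  have hN : (0 : ℝ) ≤ (twists P).card := Nat.cast_nonneg _
  have hchar : ∀ T ⊆ P, |∑ D ∈ twists P, chi T D * (g D - c)| ≤ ε / 3 * (twists P).card := by
    intro T hT
    have := characters_of hP h hl hT
    linarith
  have hpair : ∀ 𝒜 ⊆ twists P, ∀ ℬ ⊆ twists P,
      |(((𝒜 ×ˢ ℬ).filter fun x => Good (mulSq x.1 x.2)).card : ℝ) - c * 𝒜.card * ℬ.card| ≤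
        ε / 3 * (twists P).card ^ 2 := by
    intro 𝒜 hA ℬ hB
    have h1 := pairs_of hP h hl hA hB
    rw [← count_pairs] at h1
    linarith
  have hN2 : (0 : ℝ) ≤ ε * (twists P).card ^ 2 := by positivity
  have hN1 : (0 : ℝ) ≤ ε * (twists P).card := by positivity
  refine ⟨fun T hT => (hchar T hT).trans (by linarith), fun 𝒜 hA ℬ hB => ?_, ?_⟩
  · have h1 := hpair 𝒜 hA ℬ hB
    have h2 : ε / 3 * ((twists P).card : ℝ) ^ 2 ≤ ε * (twists P).card ^ 2 := by linarith
    exact h1.trans h2
  · set G := (twists P).filter fun D => Good D with hG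
    have hGs : G ⊆ twists P := Finset.filter_subset _ _
    have h1 := hpair G hGs G hGs
    have h2 := hchar ∅ (Finset.empty_subset _)
    have h3 : ∑ D ∈ twists P, chi ∅ D * (g D - c) = (G.card : ℝ) - c * (twists P).card := by
      have e1 : ∀ D, chi ∅ D * (g D - c) = g D - c := by
        intro D
        unfold chi
        rw [Finset.filter_empty, Finset.card_empty, pow_zero, one_mul]
      simp only [e1, Finset.sum_sub_distrib, Finset.sum_const, nsmul_eq_mul]
      rw [hG, Finset.card_filter]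
      push_cast
      unfold g
      rw [mul_comm c]
    rw [h3] at h2
    have h4 : ((twists P ×ˢ twists P).filter fun x => Good x.1 ∧ Good x.2 ∧ Good (mulSq x.1 x.2)) =
        (G ×ˢ G).filter fun x => Good (mulSq x.1 x.2) := by
      ext x
      simp only [hG, Finset.mem_filter, Finset.mem_product]
      tauto
    obtain ⟨b1, b2⟩ := c_bounds
    have h5 : (G.card : ℝ) ≤ (twists P).card := by exact_mod_cast Finset.card_le_card hGs
    have h6 : (0 : ℝ) ≤ G.card := Nat.cast_nonneg _
    set N : ℝ := ((twists P).card : ℝ) with hNd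
    set x : ℝ := (G.card : ℝ) with hx
    have h7 : |c * x * x - c ^ 3 * N ^ 2| ≤ 2 * (ε / 3 * N ^ 2) := by
      have e1 : c * x * x - c ^ 3 * N ^ 2 = c * (x + c * N) * (x - c * N) := by ring
      rw [e1, abs_mul]
      have e2 : |c * (x + c * N)| ≤ 2 * N := by
        rw [abs_of_nonneg (by positivity)]
        have k1 : c * N ≤ N := mul_le_of_le_one_left hN (by linarith)
        have k2 : c * (x + c * N) ≤ x + c * N := mul_le_of_le_one_left (by positivity) (by linarith)
        linarith
      calc |c * (x + c * N)| * |x - c * N| ≤ (2 * N) * (ε / 3 * N) :=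
            mul_le_mul e2 h2 (abs_nonneg _) (by positivity)
        _ = 2 * (ε / 3 * N ^ 2) := by ring
    have h8 : |(((G ×ˢ G).filter fun x => Good (mulSq x.1 x.2)).card : ℝ) - c ^ 3 * N ^ 2| ≤
        ε * N ^ 2 := by
      have e1 := abs_le.1 h1
      have e2 := abs_le.1 h7
      rw [abs_le]
      constructor <;> linarith [e1.1, e1.2, e2.1, e2.2]
    refine le_trans (le_of_eq ?_) h8
    congr 3
    rw [← h4]

end proof

open Classical in
/-- **The theorem.**  `c` is between `0.2887` and `0.2888`; a set `P` of primes `≥ 7` has at least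
`2 ^ #P / 8` elements in `twists P`, which is closed under `mulSq`, and for all its elements `D ≠ 1`
the twist is good as soon as `E_D(ℚ)` is finite and `Ш(E_D/ℚ)[2] = 0`; and for every `ε > 0` and
every large `m`, for all large `X` all but a proportion at most `ε` of the sets `P` of `m` primes
between `7` and `X` satisfy `Quasirandom ε P`. -/
theorem result :
    (0.2887 < c ∧ c < 0.2888) ∧
    (∀ P : Finset ℕ, (∀ p ∈ P, p.Prime ∧ 7 ≤ p) → 2 ^ P.card ≤ 8 * (twists P).card ∧
      (∀ A ∈ twists P, ∀ B ∈ twists P, mulSq A B ∈ twists P) ∧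
      ∀ D ∈ twists P, D ≠ 1 → RankZeroShaTwo D → Good D) ∧
    (∀ ε : ℝ, 0 < ε → ∃ m₀ : ℕ, ∀ m : ℕ, m₀ ≤ m → ∀ᶠ X : ℕ in atTop,
      (((primeSets m X).filter fun P => ¬ Quasirandom ε P).card : ℝ) ≤
        ε * (primeSets m X).card) := by
  refine ⟨c_bounds, fun P hP => ⟨twists_large hP, ?_, ?_⟩, fun ε hε => ?_⟩
  · intro A hA B hB
    rw [twists_eq] at hA hB ⊢
    exact Pool.Agent.H454.QD.xr_mem hP hA hB
  · intro D hD h1 h2
    exact (good_iff (sq_of_mem hP (mem_twists.1 hD).1) (mem_twists.1 hD).2 h1).2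
      ((sel_iff (sq_of_mem hP (mem_twists.1 hD).1) (mem_twists.1 hD).2 h1).1 h2)
  obtain ⟨m0, hm0⟩ := Pool.Agent.H454.QD.sets2 (ε / 6) ε (by positivity) hε
  obtain ⟨m1, hm1⟩ := pow_unbounded_of_one_lt (48 / ε) (one_lt_two)
  refine ⟨max m0 m1, fun m hm => ?_⟩
  filter_upwards [hm0 m (le_trans (le_max_left _ _) hm)] with X hX
  rw [primeSets_eq]
  refine le_trans ?_ hX
  rw [Nat.cast_le]
  refine Finset.card_le_card fun P hP => ?_
  rw [Finset.mem_filter] at hP ⊢
  refine ⟨hP.1, ?_⟩
  by_contra hE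
  refine hP.2 (quasi_of hε ?_ ?_ hE)
  · intro q hq
    exact (Pool.Agent.H454.QB.mem_Pr.1 ((Finset.mem_powersetCard.1 hP.1).1 hq)).2
  · have h1 := twists_large (P := P) fun q hq =>
      (Pool.Agent.H454.QB.mem_Pr.1 ((Finset.mem_powersetCard.1 hP.1).1 hq)).2
    rw [(Finset.mem_powersetCard.1 hP.1).2] at h1
    have h2 : (2 : ℝ) ^ m ≤ 8 * (twists P).card := by exact_mod_cast h1
    have h3 : (2 : ℝ) ^ m1 ≤ 2 ^ m :=
      pow_le_pow_right₀ one_le_two (le_trans (le_max_right _ _) hm)
    have h4 : 48 / ε ≤ 8 * (twists P).card := by linarith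
    rw [div_le_iff₀ hε] at h4
    linarith

end Pool.Agent.Results.MP_696deb_nt.QuasirandomX15
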