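import Pool.Agent.H454.QB.Tr
import Pool.Agent.H468.X15S.Top

/-!
# The rank part of the Birch and Swinnerton-Dyer conjecture inside almost every finitely generated group
# of quadratic twists of `X_0(15)`

`E_D : y² = x³ - 12987 D² x - 263466 D³` is the quadratic twist by `D` of the curve
`X_0(15) : y² + x y + y = x³ + x² - 10 x - 10`.

All the known results about the proportion of the quadratic twists for which the rank part of the
conjecture holds average over all the twists `D ≤ X` (or over all `D` with a given number of prime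
factors).  Here the average is over a *single finite group*: the quadratic twists by the products of the
subsets of a set `P` of `m` primes, in other words the characters of the Galois group of the
multiquadratic field generated by the `√p`, `p ∈ P`.  The theorem: if `m` is large, then for almost all
the sets `P` of `m` primes the share of the twists `D ≡ 1, 49 mod 60` of this group such that `E_D(ℚ)` is
finite and `Ш(E_D/ℚ)[2] = 0` is, up to `ε`, the constant `c = (1 - 1/2) (1 - 1/4) (1 - 1/8) ⋯ = 0.2887...`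
(the same for all groups: there is no dependence on the group), and the problem's statement holds for
all these `D` (with the possible exception of `D = 1`).

Proof.  The twists of a group are not independent: they are all functions of the `m (m - 1) / 2` symbols
of pairs of elements of `P` (and of `P` modulo `60`).  The second moment over the sets `P` is computed
(`Pool/Agent/H454/QB`): for two subsets `S`, `T` of `P` the kernels of the two symmetric matrices are
uncoupled with the help of the entries outside the common square `(S ∩ T) × (S ∩ T)`, by a bijective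
shift of the moment sums; the symbols are equidistributed by the theorem of Siegel and Walfisz and the
large sieve.  The `L`-values: `Pool/Graph/.../H757_X15`, by helper757 and their team.  The 2-Selmer groups
and `Ш[2]`: `Pool/Agent/H468`, by helper468.
-/

set_option autoImplicit false

open Filter Topology

namespace Pool.Agent.Results.MP_696deb_nt.QuenchedX15

open Pool.Agent.TH841.SH.D (Sha)

/-- `N_p`: the number of pairs `(x, y) ∈ (ℤ/p)²` with `y² = x³ + a x + b`. -/
noncomputable def pointCount (a b : ℤ) (p : ℕ) : ℕ :=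
  Nat.card {q : ZMod p × ZMod p // q.2 ^ 2 = q.1 ^ 3 + (a : ZMod p) * q.1 + (b : ZMod p)}

/-- `p` is a prime not dividing `2 Δ`, `Δ = -4 a³ - 27 b²`. -/
def GoodPrime (a b : ℤ) (p : ℕ) : Prop :=
  p.Prime ∧ ¬ ((p : ℤ) ∣ 2 * (-4 * a ^ 3 - 27 * b ^ 2))

open Classical in
/-- `F` is the `L`-function of `E : y² = x³ + a x + b` (in the form of the problem): it is entire and
for `Re s > 3/2` it is the incomplete product `∏_{p ∤ 2Δ} (1 - a_p p^{-s} + p^{1-2s})⁻¹`,
`a_p = p - N_p`. -/
def IsL (a b : ℤ) (F : ℂ → ℂ) : Prop :=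
  Differentiable ℂ F ∧ ∀ s : ℂ, (3 : ℝ) / 2 < s.re →
    HasProd (fun p : ℕ => if GoodPrime a b p then
      (1 - ((p : ℂ) - (pointCount a b p : ℂ)) * (p : ℂ) ^ (-s) + (p : ℂ) ^ (1 - 2 * s))⁻¹ else 1)
      (F s)

/-- the group `E(ℚ)` for `E : y² = x³ + a x + b` -/
abbrev Points (a b : ℤ) : Type :=
  (({ a₁ := 0, a₂ := 0, a₃ := 0, a₄ := (a : ℚ), a₆ := (b : ℚ) } : WeierstrassCurve ℚ).toAffine).Point

/-- The statement of the problem for `E : y² = x³ + a x + b`, with the additional information that
both sides are `0`: the `L`-function of `E` is entire, its order of vanishing at `s = 1` is the rank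
of `E(ℚ)`, the rank is `0`, and `E(ℚ)` is finite. -/
def BSDRankZero (a b : ℤ) : Prop :=
  4 * a ^ 3 + 27 * b ^ 2 ≠ 0 ∧ Finite (Points a b) ∧ ∃ F : ℂ → ℂ, IsL a b F ∧
    analyticOrderAt F 1 = ((Module.finrank ℤ (Points a b) : ℕ) : ℕ∞) ∧
    Module.finrank ℤ (Points a b) = 0

/-- The rank form of the conjecture, with rank `0`, for the quadratic twist by `D` of `X_0(15)`,
`E_D : y² = x³ - 12987 D² x - 263466 D³`. -/
def TwistBSD (D : ℕ) : Prop := BSDRankZero (-12987 * (D : ℤ) ^ 2) (-263466 * (D : ℤ) ^ 3)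

/-- the quadratic twist by `D` of `X_0(15)` -/
def E (D : ℕ) : WeierstrassCurve ℚ :=
  { a₁ := 0, a₂ := 0, a₃ := 0, a₄ := ((-12987 * (D : ℤ) ^ 2 : ℤ) : ℚ),
    a₆ := ((-263466 * (D : ℤ) ^ 3 : ℤ) : ℚ) }

/-- `E_D(ℚ)` is finite and `Ш(E_D/ℚ)` has no element of order two. -/
def RankZeroShaTwo (D : ℕ) : Prop :=
  Finite (E D).toAffine.Point ∧ ∀ x : Sha (E D), x + x = 0 → x = 0

/-- the constant `(1 - 1/2) (1 - 1/4) (1 - 1/8) ⋯ = 0.2887...` -/
noncomputable def c : ℝ := ∏' i : ℕ, (1 - (1 / 2 : ℝ) ^ (i + 1))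

/-- The products `D` of the subsets of `P` with `D ≡ 1` or `49` modulo `60`. -/
def twists (P : Finset ℕ) : Finset ℕ :=
  (P.powerset.image fun S => ∏ p ∈ S, p).filter fun D => D % 60 = 1 ∨ D % 60 = 49

/-- The sets of `m` primes between `7` and `X`. -/
def primeSets (m X : ℕ) : Finset (Finset ℕ) := ((Finset.Icc 7 X).filter Nat.Prime).powersetCard m

open Classical in
/-- The law for the twists by the elements of `twists P`, up to `ε`: the number of those with `E_D(ℚ)`
finite and `Ш(E_D/ℚ)[2] = 0` differs from `c * #twists P` by at most `ε * #twists P`, and the number of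
those for which moreover the statement of the problem holds is at least `(c - ε) * #twists P`. -/
def Law (ε : ℝ) (P : Finset ℕ) : Prop :=
  |(((twists P).filter RankZeroShaTwo).card : ℝ) - c * (twists P).card| ≤ ε * (twists P).card ∧
  (c - ε) * (twists P).card ≤ ((twists P).filter fun D => RankZeroShaTwo D ∧ TwistBSD D).card

section proof

open Pool.Agent.H757_X15.DD (Fm Crit c1 t_LA1)
open Pool.Agent.H454.QB (grp Pr dev Exc)

lemma bsd_of {D : ℕ} (hS : Squarefree D) (hD : Fm D) (h1 : D ≠ 1) (hG : Crit D) : TwistBSD D := by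
  have hfin := Pool.Agent.H468.X15.finite_set hS hD hG h1
  obtain ⟨F, hF, hp, h0, hr⟩ := Pool.Agent.H468.X15.rankBSD_of hS hD h1 hG
  have hD0 : (D : ℤ) ≠ 0 := by exact_mod_cast hS.ne_zero
  refine ⟨?_, Pool.Agent.Y687.finite_pt_of_set hfin, F, ⟨hF, fun s hs => ?_⟩, ?_, ?_⟩
  · have e : 4 * (-12987 * (D : ℤ) ^ 2) ^ 3 + 27 * (-263466 * (D : ℤ) ^ 3) ^ 2 =
        (4 * (-12987) ^ 3 + 27 * (-263466) ^ 2) * (D : ℤ) ^ 6 := by ring
    rw [e]
    exact mul_ne_zero (by norm_num) (pow_ne_zero 6 hD0)
  · refine (congrArg (fun g => HasProd g (F s)) (funext fun p => ?_)).mp (hp s hs)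
    by_cases h : GoodPrime (-12987 * (D : ℤ) ^ 2) (-263466 * (D : ℤ) ^ 3) p
    · exact (if_pos h).trans (if_pos h).symm
    · exact (if_neg h).trans (if_neg h).symm
  · have hr' : Module.finrank ℤ (Points (-12987 * (D : ℤ) ^ 2) (-263466 * (D : ℤ) ^ 3)) = 0 := hr
    rw [hr', h0]
    rfl
  · exact hr

lemma c_bounds : 0.2887 < c ∧ c < 0.2888 := t_LA1.2.2.2

lemma sel_iff {D : ℕ} (hS : Squarefree D) (hD : Fm D) (h1 : D ≠ 1) : RankZeroShaTwo D ↔ Crit D :=
  Pool.Agent.H468.X15.sha_iff_crit (Pool.Agent.H468.X15.mod_short hS.ne_zero _ _ rfl rfl)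
    hS hD h1 fun hC => Pool.Agent.Y687.finite_pt_of_set
      (Pool.Agent.H468.X15.finite_set hS hD hC h1)

lemma mem_twists {P : Finset ℕ} {D : ℕ} : D ∈ twists P ↔ D ∈ grp P ∧ Fm D := by
  unfold twists grp Fm
  rw [Finset.mem_filter]

lemma sq_of_mem {P : Finset ℕ} (hP : ∀ q ∈ P, q.Prime ∧ 7 ≤ q) {D : ℕ} (hD : D ∈ grp P) :
    Squarefree D := by
  unfold grp at hD
  obtain ⟨S, hS, rfl⟩ := Finset.mem_image.1 hD
  exact Pool.Agent.H454.QB.sqfree_prod fun q hq => (hP q (Finset.mem_powerset.1 hS hq)).1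

open Classical in
lemma card_twists (P : Finset ℕ) :
    (twists P).card = ((grp P).filter fun D => Fm D).card := by
  congr 1
  ext D
  rw [mem_twists, Finset.mem_filter]

open Classical in
/-- the number of the elements with the criterion -/
lemma card_near {P : Finset ℕ} (hP : ∀ q ∈ P, q.Prime ∧ 7 ≤ q) (Q : ℕ → Prop)
    (hQ : ∀ D, Squarefree D → Fm D → D ≠ 1 → (Q D ↔ Crit D)) :
    |(((twists P).filter Q).card : ℝ) - ((grp P).filter fun D => Fm D ∧ Crit D).card| ≤ 1 := by
  have h1 : ((twists P).filter Q).card ≤ ((grp P).filter fun D => Fm D ∧ Crit D).card + 1 := by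
    have : (twists P).filter Q ⊆ ((grp P).filter fun D => Fm D ∧ Crit D) ∪ {1} := by
      intro D hD
      rw [Finset.mem_filter, mem_twists] at hD
      rw [Finset.mem_union, Finset.mem_filter, Finset.mem_singleton]
      by_cases h : D = 1
      · exact Or.inr h
      · exact Or.inl ⟨hD.1.1, hD.1.2, (hQ D (sq_of_mem hP hD.1.1) hD.1.2 h).1 hD.2⟩
    refine le_trans (Finset.card_le_card this) (le_trans (Finset.card_union_le _ _) ?_)
    rw [Finset.card_singleton]
  have h2 : ((grp P).filter fun D => Fm D ∧ Crit D).card ≤ ((twists P).filter Q).card + 1 := by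
    have : ((grp P).filter fun D => Fm D ∧ Crit D) ⊆ (twists P).filter Q ∪ {1} := by
      intro D hD
      rw [Finset.mem_filter] at hD
      rw [Finset.mem_union, Finset.mem_filter, Finset.mem_singleton, mem_twists]
      by_cases h : D = 1
      · exact Or.inr h
      · exact Or.inl ⟨⟨hD.1, hD.2.1⟩, (hQ D (sq_of_mem hP hD.1) hD.2.1 h).2 hD.2.2⟩
    refine le_trans (Finset.card_le_card this) (le_trans (Finset.card_union_le _ _) ?_)
    rw [Finset.card_singleton]
  have h1' : (((twists P).filter Q).card : ℝ) ≤ ((grp P).filter fun D => Fm D ∧ Crit D).card + 1 := by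
    exact_mod_cast h1
  have h2' : (((grp P).filter fun D => Fm D ∧ Crit D).card : ℝ) ≤ ((twists P).filter Q).card + 1 := by
    exact_mod_cast h2
  rw [abs_le]
  constructor <;> linarith

lemma primeSets_eq (m X : ℕ) : primeSets m X = (Pr X).powersetCard m := by
  unfold primeSets
  congr 1
  ext p
  rw [Pool.Agent.H454.QB.mem_Pr, Finset.mem_filter, Finset.mem_Icc]
  constructor
  · rintro ⟨⟨h1, h2⟩, h3⟩; exact ⟨h2, h3, h1⟩
  · rintro ⟨h1, h2, h3⟩; exact ⟨⟨h3, h1⟩, h2⟩

lemma twists_large {P : Finset ℕ} (hP : ∀ p ∈ P, p.Prime ∧ 7 ≤ p) :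
    2 ^ P.card ≤ 8 * (twists P).card := by
  rw [card_twists]
  exact Pool.Agent.H454.QB.fam_large hP

lemma law_of {ε : ℝ} {P : Finset ℕ} (hP : ∀ q ∈ P, q.Prime ∧ 7 ≤ q)
    (hlarge : 1 ≤ ε / 2 * (twists P).card) (h : ¬ Exc (ε / 2) P) : Law ε P := by
  classical
  unfold Exc at h
  rw [← card_twists, not_lt] at h
  unfold dev at h
  rw [← card_twists] at h
  have hc : c1 = c := rfl
  rw [hc] at h
  have h1 := card_near hP RankZeroShaTwo fun D hS hD h1 => sel_iff hS hD h1
  have h2 := card_near hP (fun D => RankZeroShaTwo D ∧ TwistBSD D) fun D hS hD h1 =>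
    ⟨fun h => (sel_iff hS hD h1).1 h.1, fun h => ⟨(sel_iff hS hD h1).2 h, bsd_of hS hD h1 h⟩⟩
  rw [abs_le] at h h1 h2
  constructor
  · rw [abs_le]
    constructor <;> linarith [h.1, h.2, h1.1, h1.2]
  · have h3 : (c - ε) * ((twists P).card : ℝ) ≤
        (((twists P).filter fun D => RankZeroShaTwo D ∧ TwistBSD D).card : ℝ) := by
      have h4 : (c - ε) * ((twists P).card : ℝ) = c * (twists P).card - ε * (twists P).card := by
        ring
      have h5 : (Finset.filter (fun D => RankZeroShaTwo D ∧ TwistBSD D) (twists P)).card =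
          (@Finset.filter ℕ (fun D => RankZeroShaTwo D ∧ TwistBSD D)
            (fun D => Classical.propDecidable _) (twists P)).card := by
        congr
      rw [h4, h5]
      linarith [h.1, h.2, h2.1, h2.2]
    exact h3

end proof

open Classical in
/-- **The theorem.**  `c` is between `0.2887` and `0.2888`; a set `P` of primes `≥ 7` has at least
`2 ^ #P / 8` elements in `twists P`; and for every `ε > 0` and every large `m`, for all large `X` all
but a proportion at most `ε` of the sets `P` of `m` primes between `7` and `X` satisfy `Law ε P`. -/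
theorem result :
    (0.2887 < c ∧ c < 0.2888) ∧
    (∀ P : Finset ℕ, (∀ p ∈ P, p.Prime ∧ 7 ≤ p) → 2 ^ P.card ≤ 8 * (twists P).card) ∧
    (∀ ε : ℝ, 0 < ε → ∃ m₀ : ℕ, ∀ m : ℕ, m₀ ≤ m → ∀ᶠ X : ℕ in atTop,
      (((primeSets m X).filter fun P => ¬ Law ε P).card : ℝ) ≤ ε * (primeSets m X).card) := by
  refine ⟨c_bounds, fun P hP => twists_large hP, fun ε hε => ?_⟩
  obtain ⟨m0, hm0⟩ := Pool.Agent.H454.QB.sets (ε / 2) ε (by positivity) hε
  obtain ⟨m1, hm1⟩ := pow_unbounded_of_one_lt (16 / ε) (one_lt_two)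
  refine ⟨max m0 m1, fun m hm => ?_⟩
  filter_upwards [hm0 m (le_trans (le_max_left _ _) hm)] with X hX
  rw [primeSets_eq]
  refine le_trans ?_ hX
  rw [Nat.cast_le]
  refine Finset.card_le_card fun P hP => ?_
  rw [Finset.mem_filter] at hP ⊢
  refine ⟨hP.1, ?_⟩
  by_contra hE
  refine hP.2 (law_of ?_ ?_ hE)
  · intro q hq
    exact (Pool.Agent.H454.QB.mem_Pr.1 ((Finset.mem_powersetCard.1 hP.1).1 hq)).2
  · have h1 := twists_large (P := P) fun q hq =>
      (Pool.Agent.H454.QB.mem_Pr.1 ((Finset.mem_powersetCard.1 hP.1).1 hq)).2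
    rw [(Finset.mem_powersetCard.1 hP.1).2] at h1
    have h2 : (2 : ℝ) ^ m ≤ 8 * (twists P).card := by exact_mod_cast h1
    have h3 : (2 : ℝ) ^ m1 ≤ 2 ^ m :=
      pow_le_pow_right₀ one_le_two (le_trans (le_max_right _ _) hm)
    have h4 : 16 / ε ≤ 8 * (twists P).card := by linarith
    rw [div_le_iff₀ hε] at h4
    linarith

end Pool.Agent.Results.MP_696deb_nt.QuenchedX15
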